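import Pool.Agent.H71.ASF.Stmts

/-!
# ASF, module KBE
-/

universe u

namespace ASF

theorem kbe (h1 : KE2Stmt.{u}) : KBEStmt.{u} := by
  intro A _ _ _ b1 b2 b3 hN x z
  have c12 : cm b1 b2 = 0 := by rw [cm, hN.h12, hN.h21, sub_zero]
  have c23 : cm b2 b3 = 0 := by rw [cm, hN.h23, hN.h32, sub_zero]
  have c31 : cm b3 b1 = 0 := by rw [cm, hN.h31, hN.h13, sub_zero]
  have E12 := (h1 A b1 b2 c12 (cm b3 x) z).1
  have E23 := (h1 A b2 b3 c23 (cm b1 x) z).1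
  have E31 := (h1 A b3 b1 c31 (cm b2 x) z).1
  have v12 : dl b1 b2 (cm b3 x) = vv b1 b2 b3 x := vv_eq hN.h12 hN.h21 hN.h31 x
  have v23 : dl b2 b3 (cm b1 x) = vv b1 b2 b3 x := by
    rw [vv_eq hN.h23 hN.h32 hN.h12 x, vv_cyc hN.h12 hN.h21 hN.h13 hN.h31 hN.h23 hN.h32]
  have v31 : dl b3 b1 (cm b2 x) = vv b1 b2 b3 x := by
    rw [vv_eq hN.h31 hN.h13 hN.h23 x, vv_cyc hN.h23 hN.h32 hN.h21 hN.h12 hN.h31 hN.h13,
      vv_cyc hN.h12 hN.h21 hN.h13 hN.h31 hN.h23 hN.h32]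
  rw [v12] at E12
  rw [v23] at E23
  rw [v31] at E31
  have F12 : asc b3 (cm b1 (cm b2 x)) z - asc b3 (cm b2 (cm b1 x)) z
      = - (6 • asc b3 (dl b1 b2 x) z) := by
    rw [← asc_sub2, cmcm c12, asc_neg2, asc_nsmul2]
  have F23 : asc b1 (cm b2 (cm b3 x)) z - asc b1 (cm b3 (cm b2 x)) z
      = - (6 • asc b1 (dl b2 b3 x) z) := by
    rw [← asc_sub2, cmcm c23, asc_neg2, asc_nsmul2]
  have F31 : asc b2 (cm b3 (cm b1 x)) z - asc b2 (cm b1 (cm b3 x)) z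
      = - (6 • asc b2 (dl b3 b1 x) z) := by
    rw [← asc_sub2, cmcm c31, asc_neg2, asc_nsmul2]
  apply e6
  simp only [smul_add]
  linear_combination (norm := abel) F12 + F23 + F31 - E12 - E23 - E31

end ASF
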