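import Pool.Agent.H71.ASF.Stmts

/-!
# ASF, module KE2
-/

universe u

namespace ASF

theorem ke2 : KE2Stmt.{u} := by
  intro A _ _ _ b1 b2 h12 w z
  have hcyc := DS_cyc_cm b1 b2 w z
  have h0 : DS (cm b1 b2) w z = 0 := by
    rw [h12, DS, cm_zero1, cm_zero1, asc_zero1, smul_zero, sub_zero]
  have e1 : DS (cm b2 w) b1 z = - DS b1 (cm b2 w) z := DS_swap _ _ _
  have e2 : DS (cm w b1) b2 z = DS b2 (cm b1 w) z := by
    rw [cm_swap b1 w, DS_neg1, DS_swap b2 (cm b1 w) z, neg_neg]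
  rw [h0, e1, e2, zero_add] at hcyc
  have hD : DS b1 (cm b2 w) z = DS b2 (cm b1 w) z := by
    linear_combination (norm := abel) -hcyc
  refine ⟨?_, hD⟩
  have hc := cmcm h12 w
  have hc2 : cm (cm b1 (cm b2 w)) z - cm (cm b2 (cm b1 w)) z = - (6 • cm (dl b1 b2 w) z) := by
    rw [← cm_sub1, hc, cm_neg1, cm_nsmul1]
  simp only [DS] at hD
  apply e3
  have : 3 • (asc b1 (cm b2 w) z - asc b2 (cm b1 w) z)
      = cm (cm b1 (cm b2 w)) z - cm (cm b2 (cm b1 w)) z := by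
    rw [smul_sub]
    linear_combination (norm := abel) -hD
  rw [this, hc2]
  abel

end ASF
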