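import Pool.Agent.H71.ASF.Stmts

/-!
# ASF, module KNU
-/

universe u

namespace ASF

theorem knu (h1 : KSYStmt.{u}) (h2 : KQ0Stmt.{u}) : KNUStmt.{u} := by
  intro A _ _ _ b1 b2 b3 hN x y
  -- `ad nu` is minus a sum of derivations
  have key : ∀ z : A, cm (nu b1 b2 b3 x y) z =
      - ((DS (dl b1 b2 x) (cm b3 y) z + DS (dl b2 b3 x) (cm b1 y) z
          + DS (dl b3 b1 x) (cm b2 y) z)
        + (DS (dl b1 b2 y) (cm b3 x) z + DS (dl b2 b3 y) (cm b1 x) z
          + DS (dl b3 b1 y) (cm b2 x) z)) := by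
    intro z
    have hs := h1 A b1 b2 b3 hN x y
    have hq := h2 A b1 b2 b3 hN x y z
    have k1 : DS (dl b1 b2 x) (cm b3 y) z + DS (dl b2 b3 x) (cm b1 y) z
          + DS (dl b3 b1 x) (cm b2 y) z = cm (nu b1 b2 b3 x y) z - 3 • XX b1 b2 b3 x y z := by
      simp only [DS, nu, XX, cm_add1, smul_add]; abel
    have k2 : DS (dl b1 b2 y) (cm b3 x) z + DS (dl b2 b3 y) (cm b1 x) z
          + DS (dl b3 b1 y) (cm b2 x) z = cm (nu b1 b2 b3 y x) z - 3 • XX b1 b2 b3 y x z := by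
      simp only [DS, nu, XX, cm_add1, smul_add]; abel
    rw [k1, k2, ← hs]
    linear_combination (norm := abel) (-3 : ℤ) • hq
  apply nuc_of_cm
  intro p q
  rw [key (p * q), key p, key q]
  simp only [DS_mul]
  simp only [neg_mul, mul_neg, add_mul, mul_add]
  abel

end ASF
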