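import Pool.Agent.H71.ASF.Stmts

/-!
# ASF, module KSY
-/

universe u

namespace ASF

theorem ksy (h1 : KE2Stmt.{u}) : KSYStmt.{u} := by
  intro A _ _ _ b1 b2 b3 hN x y
  have c12 : cm b1 b2 = 0 := by rw [cm, hN.h12, hN.h21, sub_zero]
  have c23 : cm b2 b3 = 0 := by rw [cm, hN.h23, hN.h32, sub_zero]
  have c31 : cm b3 b1 = 0 := by rw [cm, hN.h31, hN.h13, sub_zero]
  have X12 := (h1 A b1 b2 c12 x (cm b3 y)).1
  have X23 := (h1 A b2 b3 c23 x (cm b1 y)).1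
  have X31 := (h1 A b3 b1 c31 x (cm b2 y)).1
  have Y12 := (h1 A b1 b2 c12 y (cm b3 x)).1
  have Y23 := (h1 A b2 b3 c23 y (cm b1 x)).1
  have Y31 := (h1 A b3 b1 c31 y (cm b2 x)).1
  -- relabel
  have R1 : asc b1 (cm b3 y) (cm b2 x) = - asc b1 (cm b2 x) (cm b3 y) := asc_s23 _ _ _
  have R2 : asc b1 (cm b2 y) (cm b3 x) = - asc b1 (cm b3 x) (cm b2 y) := asc_s23 _ _ _
  have R3 : asc b2 (cm b1 y) (cm b3 x) = - asc b2 (cm b3 x) (cm b1 y) := asc_s23 _ _ _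
  have R4 : asc b2 (cm b3 y) (cm b1 x) = - asc b2 (cm b1 x) (cm b3 y) := asc_s23 _ _ _
  have R5 : asc b3 (cm b1 y) (cm b2 x) = - asc b3 (cm b2 x) (cm b1 y) := asc_s23 _ _ _
  have R6 : asc b3 (cm b2 y) (cm b1 x) = - asc b3 (cm b1 x) (cm b2 y) := asc_s23 _ _ _
  rw [R2, R3] at Y12
  rw [R4, R6] at Y23
  rw [R5, R1] at Y31
  apply e2
  simp only [nu, smul_add]
  linear_combination (norm := abel) X12 + X23 + X31 - Y12 - Y23 - Y31

end ASF
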